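import Mathlib
import Pool.Agent.H242R3.LinFinal

/-!
# A finite unbounded-order Arguesian lattice that is not linear

`SatisfiesD L n` is Haiman's higher Arguesian inequality `D_n`, `IsLinear L` says that `L` is
isomorphic to a lattice of pairwise commuting equivalence relations on a set. We show that the order
dual of every linear lattice satisfies every `D_n`; so the dual of the finite linear lattice of
`Pool.Agent.H242R3.LinFinal` (the normal subgroups of a group of order `2 ^ 23`), whose dual is not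
linear, is a finite unbounded-order Arguesian lattice which is not linear.
-/

set_option autoImplicit false

namespace Pool.Agent.Results.MP_9293a4_al.FiniteNonLinear

universe u v

/-- Haiman's higher Arguesian inequality `D_n`, `n ≥ 3`, in the variables `a 1, …, a n, b 1, …, b n`. -/
def SatisfiesD (L : Type u) [Lattice L] (n : ℕ) (hn : 3 ≤ n) : Prop :=
  ∀ a b : ℕ → L,
    a n ⊓ ((Finset.Icc 1 (n - 1)).inf' (Finset.nonempty_Icc.2 (by omega))
        (fun i => a i ⊔ b i) ⊔ b n) ≤
      a 1 ⊔ ((Finset.Icc 1 (n - 1)).sup' (Finset.nonempty_Icc.2 (by omega))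
        (fun i => (a i ⊔ a (i + 1)) ⊓ (b i ⊔ b (i + 1))) ⊓ (b 1 ⊔ b n))

/-- `L` is linear: it embeds in the lattice of equivalence relations on a set `S`, such that the
relations in the image commute pairwise. -/
def IsLinear (L : Type u) [Lattice L] : Prop :=
  ∃ (S : Type v) (f : LatticeHom L (Setoid S)), Function.Injective f ∧
    ∀ (a b : L) (x y : S),
      (∃ z, (f a).r x z ∧ (f b).r z y) ↔ (∃ z, (f b).r x z ∧ (f a).r z y)

/-- The order dual of a linear lattice satisfies every `D_n`. -/
theorem dual_satisfiesD {L : Type u} [Lattice L] (h : IsLinear.{u, v} L) (n : ℕ) (hn : 3 ≤ n) :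
    SatisfiesD Lᵒᵈ n hn := by
  obtain ⟨X, f, finj, hc⟩ := h
  intro a' b'
  set a : ℕ → L := fun i => OrderDual.ofDual (a' i) with ha
  set b : ℕ → L := fun i => OrderDual.ofDual (b' i) with hb
  set P : L := OrderDual.ofDual ((Finset.Icc 1 (n - 1)).sup' (Finset.nonempty_Icc.2 (by omega))
        (fun i => (a' i ⊔ a' (i + 1)) ⊓ (b' i ⊔ b' (i + 1)))) with hP
  set Q : L := OrderDual.ofDual ((Finset.Icc 1 (n - 1)).inf' (Finset.nonempty_Icc.2 (by omega))
        (fun i => a' i ⊔ b' i)) with hQ
  have hPle : ∀ i ∈ Finset.Icc 1 (n - 1), P ≤ (a i ⊓ a (i + 1)) ⊔ (b i ⊓ b (i + 1)) := by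
    intro i hi
    have := Finset.le_sup' (fun i => (a' i ⊔ a' (i + 1)) ⊓ (b' i ⊔ b' (i + 1))) hi
    exact this
  have hQle : ∀ i ∈ Finset.Icc 1 (n - 1), a i ⊓ b i ≤ Q := by
    intro i hi
    have := Finset.inf'_le (fun i => a' i ⊔ b' i) hi
    exact this
  have key : a 1 ⊓ (P ⊔ (b 1 ⊓ b n)) ≤ a n ⊔ (Q ⊓ b n) := by
    have emb : ∀ s t : L, f s ≤ f t → s ≤ t := by
      intro s t hst
      have h1 : f (s ⊓ t) = f s := by rw [map_inf]; exact inf_eq_left.2 hst
      exact inf_eq_left.1 (finj h1)
    apply emb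
    intro x y hxy
    have mono : ∀ {s t : L}, s ≤ t → ∀ {p q : X}, (f s).r p q → (f t).r p q := by
      intro s t hst p q hpq
      have : f s ≤ f t := OrderHomClass.mono f hst
      exact this hpq
    have infI : ∀ {s t : L} {p q : X}, (f s).r p q → (f t).r p q → (f (s ⊓ t)).r p q := by
      intro s t p q h1 h2
      have e : f (s ⊓ t) = f s ⊓ f t := map_inf f s t
      rw [e]
      exact ⟨h1, h2⟩
    have supE : ∀ {s t : L} {p q : X}, (f (s ⊔ t)).r p q → ∃ z, (f s).r p z ∧ (f t).r z q := by
      intro s t p q h1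
      have e : f (s ⊔ t) = f s ⊔ f t := map_sup f s t
      rw [e] at h1
      exact Pool.Agent.H242R3.Lin.sup_comp _ _ (hc s t) h1
    have symm : ∀ {s : L} {p q : X}, (f s).r p q → (f s).r q p := fun {s} {p} {q} h =>
      (f s).iseqv.symm h
    have trans : ∀ {s : L} {p q r : X}, (f s).r p q → (f s).r q r → (f s).r p r :=
      fun {s} {p} {q} {r} h k => (f s).iseqv.trans h k
    have h1 : (f (a 1)).r x y := mono inf_le_left hxy
    obtain ⟨z, hxz, hzy⟩ := supE (mono inf_le_right hxy : (f (P ⊔ (b 1 ⊓ b n))).r x y)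
    have hw : ∀ i ∈ Finset.Icc 1 (n - 1), ∃ w, (f (a i ⊓ a (i + 1))).r x w ∧
        (f (b i ⊓ b (i + 1))).r w z := fun i hi => supE (mono (hPle i hi) hxz)
    have hne : Nonempty X := ⟨x⟩
    choose! w hw1 hw2 using hw
    have hind : ∀ i, 1 ≤ i → i ≤ n - 1 → (f Q).r y (w i) := by
      intro i hi
      induction i, hi using Nat.le_induction with
      | base =>
        intro h
        have hm : 1 ∈ Finset.Icc 1 (n - 1) := Finset.mem_Icc.2 ⟨le_rfl, h⟩
        apply mono (hQle 1 hm)
        apply infI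
        · exact trans (symm h1) (mono inf_le_left (hw1 1 hm))
        · exact trans (symm (mono inf_le_left hzy)) (symm (mono inf_le_left (hw2 1 hm)))
      | succ i hi ih =>
        intro h
        have hm : i ∈ Finset.Icc 1 (n - 1) := Finset.mem_Icc.2 ⟨hi, by omega⟩
        have hm' : i + 1 ∈ Finset.Icc 1 (n - 1) := Finset.mem_Icc.2 ⟨by omega, h⟩
        refine trans (ih (by omega)) (mono (hQle (i + 1) hm') (infI ?_ ?_))
        · exact trans (symm (mono inf_le_right (hw1 i hm))) (mono inf_le_left (hw1 (i + 1) hm'))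
        · exact trans (mono inf_le_right (hw2 i hm)) (symm (mono inf_le_left (hw2 (i + 1) hm')))
    have hm : n - 1 ∈ Finset.Icc 1 (n - 1) := Finset.mem_Icc.2 ⟨by omega, le_rfl⟩
    have hn1 : n - 1 + 1 = n := by omega
    have e1 := hw1 (n - 1) hm
    have e2 := hw2 (n - 1) hm
    rw [hn1] at e1 e2
    have g1 : (f (a n ⊔ (Q ⊓ b n))).r x (w (n - 1)) := mono (le_trans inf_le_right le_sup_left) e1
    have g2 : (f (Q ⊓ b n)).r (w (n - 1)) y :=
      infI (symm (hind (n - 1) (by omega) le_rfl))
        (trans (mono inf_le_right e2) (mono inf_le_right hzy))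
    exact trans g1 (mono le_sup_right g2)
  exact key

/-- There is a finite lattice which satisfies all the higher Arguesian laws `D_n` but is not
linear. -/
theorem result : ∃ (L : Type) (_ : Lattice L), Finite L ∧
    (∀ (n : ℕ) (hn : 3 ≤ n), SatisfiesD L n hn) ∧ ¬ IsLinear.{0, u} L := by
  refine ⟨Pool.Agent.H242R3.Lin.Lᵒᵈ, inferInstance, ?_, ?_, ?_⟩
  · have : Finite Pool.Agent.H242R3.Lin.G := by
      refine Finite.of_injective
        (fun g : Pool.Agent.H242R3.Lin.G => ((g.a, g.c) : (Fin 7 → Bool) × (Fin 16 → Bool))) ?_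
      intro g h hgh
      exact Pool.Agent.H242R3.Lin.G.ext (congrArg Prod.fst hgh) (congrArg Prod.snd hgh)
    have : Finite Pool.Agent.H242R3.Lin.L := inferInstance
    infer_instance
  · intro n hn
    exact dual_satisfiesD.{0, 0} Pool.Agent.H242R3.Lin.L_linear n hn
  · exact Pool.Agent.H242R3.Lin.L_dual_not_linear

end Pool.Agent.Results.MP_9293a4_al.FiniteNonLinear
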